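import Mathlib
import Pool.Agent.Q98.SR.R

/-!
# Lehmer's problem: numbers of bounded degree over Galois fields of finite exponent modulo the centre

For every `d ≥ 1` and `D ≥ 1` there is a constant `c > 0`, depending only on `d` and `D`, such that:
if `L ⊂ ℂ` is a finite Galois extension of `ℚ` whose Galois group has central `d`-th powers, `f` is
a nonzero integer polynomial and `α` is a zero of `f`, not zero and not a root of unity, which has
degree at most `D` over `L`, then `M(f) ≥ 2` or `log M(f) ≥ c n ^ (1 / (d + 1))`, where `n` is the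
degree of `α` over `ℚ`.  If `α` is an algebraic integer then always
`log M(f) ≥ c n ^ (1 / (d + 1))`.
-/

set_option autoImplicit false

open Polynomial

namespace Pool.Agent.Results.MP_dc0c68_nt.BoundedDegreeOverFiniteExponent

/-- **Lehmer's problem for algebraic numbers of bounded degree over Galois fields of finite exponent
modulo the centre.** -/
theorem result : ∀ d D : ℕ, 0 < d → 0 < D → ∃ c : ℝ, 0 < c ∧
    ∀ (L : IntermediateField ℚ ℂ), FiniteDimensional ℚ L → IsGalois ℚ L →
    (∀ σ τ : L ≃ₐ[ℚ] L, σ ^ d * τ = τ * σ ^ d) →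
    ∀ f : ℤ[X], f ≠ 0 → ∀ α : ℂ, α ≠ 0 → (∀ k : ℕ, 0 < k → α ^ k ≠ 1) → aeval α f = 0 →
    (minpoly L α).natDegree ≤ D →
    (2 ≤ (f.map (Int.castRingHom ℂ)).mahlerMeasure ∨
      c * ((minpoly ℚ α).natDegree : ℝ) ^ ((1 : ℝ) / (d + 1)) ≤
        Real.log (f.map (Int.castRingHom ℂ)).mahlerMeasure) ∧
    (IsIntegral ℤ α → c * ((minpoly ℚ α).natDegree : ℝ) ^ ((1 : ℝ) / (d + 1)) ≤
      Real.log (f.map (Int.castRingHom ℂ)).mahlerMeasure) :=
  fun d D hd hD => Pool.Agent.Q98.SR.lehmer_bdd d D hd hD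

end Pool.Agent.Results.MP_dc0c68_nt.BoundedDegreeOverFiniteExponent
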