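import Mathlib
import Pool.Agent.Q188.RK.Fin

/-!
# Lehmer's problem for integer matrices that differ by a matrix of bounded rank and norm

Let `A` and `A + D` be integer matrices of any size `n` (endomorphisms of a torus) and `G` an inner product
on `ℂ ^ n`. Suppose that in one step `A` increases the volumes of the parallelepipeds of all dimensions
`k ≤ n`, measured with `G`, at most by a bounded factor `K ^ (1/2)`, that `D` has rank at most `s` and norm
at most `L ^ (1/2)`. We show that there is `μ > 1`, which depends only on `L`, `K` and `s`, such that the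
following holds. If a number outside the closed unit disc is a zero of the characteristic polynomials of
`A` and `A + D` with different multiplicities, then the Mahler measure of the one with the larger
multiplicity is at least `μ`. In particular, if one of the matrices `A`, `A + D` has entropy zero (for
instance if `A` is an isometry for `G`, `K = 1`; then `A` has finite order), then the Mahler measure of the
characteristic polynomial of the other one is `1` or at least `μ`.

Proof. (1) If `H ≥ G`, `H ≥ Bᴴ G B` then the square of the Mahler measure of the characteristic polynomial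
of the complex matrix `B` is at most `det H / det G` (`VG.Key`). (2) If `|u| = 1` and `R` is of rank one and
norm at most `L ^ (1/2)` and `H` is as in (1) for `B`, there is such a matrix `H'` for all `B - u R`, with
`det H' ≤ 2 (1 + 2 L) det H` (`Step`). The characteristic polynomial of `B - u R` is an affine function
`P + u Q` of `u`, and the integral of `log max(|P|, |Q|)` over the unit circle is the mean of the
logarithms of the measures of the `P + u Q` (`Ht`). (3) `D` is the sum of `s` matrices of rank one and norm
at most `L ^ (1/2)`, and the integrals of (2) for the successive pairs are added; the measures of the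
intermediate characteristic polynomials are at least `1` (`Chain`, `Dec`). (4) Lehmer's inequality is known
for coprime pairs of integer polynomials of bounded height (starting library, `gap_one`).
-/

set_option autoImplicit false

open Polynomial Matrix
open scoped ComplexOrder

namespace Pool.Agent.Results.MP_dc0c68_nt.RankPerturbations

/-- An integer matrix as a complex matrix. -/
noncomputable abbrev toComplex {n : ℕ} (A : Matrix (Fin n) (Fin n) ℤ) : Matrix (Fin n) (Fin n) ℂ :=
  A.map (Int.castRingHom ℂ)

/-- The square of the `k`-dimensional volume, with respect to the inner product `x, y ↦ xᴴ G y`, of the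
parallelepiped spanned by the columns of `X` (the Gram determinant). -/
def sqVolume {n k : ℕ} (G : Matrix (Fin n) (Fin n) ℂ) (X : Matrix (Fin n) (Fin k) ℂ) : ℝ :=
  (Xᴴ * G * X).det.re

/-- In one step, `A` increases the squares of the volumes of the parallelepipeds of all dimensions,
measured with the inner product `G`, at most by the factor `K`. -/
def VolumeGrowthLe (K : ℝ) {n : ℕ} (A : Matrix (Fin n) (Fin n) ℤ) (G : Matrix (Fin n) (Fin n) ℂ) : Prop :=
  ∀ (k : ℕ) (X : Matrix (Fin n) (Fin k) ℂ), sqVolume G (toComplex A * X) ≤ K * sqVolume G X

/-- The square of the norm of `D`, with respect to the inner product `G`, is at most `L`. -/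
def SqNormLe (L : ℝ) {n : ℕ} (D : Matrix (Fin n) (Fin n) ℤ) (G : Matrix (Fin n) (Fin n) ℂ) : Prop :=
  ∀ x : Fin n → ℂ,
    (star (toComplex D *ᵥ x) ⬝ᵥ (G *ᵥ (toComplex D *ᵥ x))).re ≤ L * (star x ⬝ᵥ (G *ᵥ x)).re

/-- The Mahler measure of the characteristic polynomial. -/
noncomputable def measure {n : ℕ} (A : Matrix (Fin n) (Fin n) ℤ) : ℝ :=
  (A.charpoly.map (Int.castRingHom ℂ)).mahlerMeasure

/-- `z` is a zero of the characteristic polynomial of multiplicity at least `r`. -/
def HasZero {n : ℕ} (A : Matrix (Fin n) (Fin n) ℤ) (z : ℂ) (r : ℕ) : Prop :=
  (X - C z) ^ r ∣ A.charpoly.map (Int.castRingHom ℂ)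

theorem result (L K : ℝ) (s : ℕ) : ∃ μ : ℝ, 1 < μ ∧
    ∀ (n : ℕ) (A D : Matrix (Fin n) (Fin n) ℤ) (G : Matrix (Fin n) (Fin n) ℂ), G.PosDef →
      VolumeGrowthLe K A G → (toComplex D).rank ≤ s → SqNormLe L D G →
      (∀ (z : ℂ) (r : ℕ), 1 < ‖z‖ →
        (HasZero A z r → ¬ HasZero (A + D) z r → μ ≤ measure A) ∧
        (HasZero (A + D) z r → ¬ HasZero A z r → μ ≤ measure (A + D))) ∧
      (measure A = 1 → measure (A + D) = 1 ∨ μ ≤ measure (A + D)) ∧
      (measure (A + D) = 1 → measure A = 1 ∨ μ ≤ measure A) := by
  obtain ⟨c, hc, _, h⟩ := Pool.Agent.Q188.RK.gap_of_one L K s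
  exact ⟨c, hc, fun n A D G hG hV hs hL => h n A D G hG hV hs hL⟩

end Pool.Agent.Results.MP_dc0c68_nt.RankPerturbations
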